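import Pool.Agent.Helper74.HG.GoalsC
import Pool.Agent.Helper55.HG.LIFT

/-!
# Project HG, packet LIK: arcs modulo different powers of `t`, coefficients in the finite field
-/

namespace Pool.Agent.Helper66.HG.LIK

open Pool.Agent.Helper74.HG MvPolynomial Pool.Agent.Helper55.HG.LIFT

/-- the projection as a homomorphism of algebras -/
noncomputable def prA (K : Type) [Field K] {m k : ℕ} (h : k ≤ m) : Tr K m →ₐ[K] Tr K k :=
  { pr K h with commutes' := fun _ => rfl }

lemma prA_apply (K : Type) [Field K] {m k : ℕ} (h : k ≤ m) (y : Tr K m) :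
    prA K h y = pr K h y := rfl

lemma aeval_prK (K : Type) [Field K] {σ : Type} {m k : ℕ} (h : k ≤ m) (f : MvPolynomial σ K)
    (x : σ → Tr K m) : pr K h (aeval x f) = aeval (prs K σ h x) f := by
  have h1 : ((prA K h).comp (aeval x) : MvPolynomial σ K →ₐ[K] Tr K k) =
      aeval (prs K σ h x) := by
    apply MvPolynomial.algHom_ext
    intro i
    simp only [AlgHom.comp_apply, aeval_X]
    rfl
  exact DFunLike.congr_fun h1 f

lemma jet_eqK (K : Type) [Field K] {σ : Type} {m k : ℕ} (h : k ≤ m) (f : MvPolynomial σ K) :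
    JetKO K f m k = prs K σ h ⁻¹' JetK K f k := by
  ext x
  simp only [JetKO, JetK, Set.mem_ofPred_eq, Set.mem_preimage]
  rw [arc_eq K σ h, Set.mem_preimage, ← aeval_prK]
  have h1 := tpow K h 1 (by omega) (aeval x f)
  have h0 := tpow K h 0 (by omega) (aeval x f)
  rw [pow_one] at h1
  rw [pow_zero, one_mul, add_zero] at h0
  rw [h1, Ne, h0]

theorem t : Pool.Agent.Helper74.HG.LIK := by
  intro K _ _ σ _
  refine ⟨(Pool.Agent.Helper55.HG.LIFT.t K σ).1, fun f m k hk => ?_⟩
  rw [jet_eqK K hk f, card_pre _ (prs_surj K σ hk), card_ker]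
  rfl

end Pool.Agent.Helper66.HG.LIK
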